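import Mathlib

/-!
Explicit splitting operators for a homotopy idempotent.

`A` is a `k`-algebra with a linear map `d`, and `e, h, r` are elements whose left
multiplications satisfy the relations coming from `d e = 0`, `d h = e^2 - e`,
`d r = e h - h e` (degrees `0, -1, -2`).
-/

namespace Pool.Agent.Helper35.Sch

open Finset

variable {k A : Type*} [CommRing k] [Ring A] [Algebra k A]

/-- The data of a homotopy idempotent with one coherence. -/
structure HIdem (d : A →ₗ[k] A) where
  e : A
  h : A
  r : A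
  de : ∀ x, d (e * x) = e * d x
  dh : ∀ x, d (h * x) = (e * e - e) * x - h * d x
  dr : ∀ x, d (r * x) = (e * h - h * e) * x + r * d x

namespace HIdem

variable {d : A →ₗ[k] A} (I : HIdem (k := k) d)

/-- The underlying module of the telescope. -/
abbrev P (A : Type*) := (ℕ → A) × (ℕ → A)

/-- differential -/
def D (I : HIdem (k := k) d) : P A →ₗ[k] P A where
  toFun y := (fun n => d (y.1 n), fun n => y.1 n - I.e * y.1 (n + 1) - d (y.2 n))
  map_add' x y := by
    ext n <;> simp [mul_add]; abel
  map_smul' c x := by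
    ext n <;> simp [smul_sub]

/-- inclusion -/
def g (I : HIdem (k := k) d) : A →ₗ[k] P A where
  toFun x := (fun _ => I.e * x, fun _ => -(I.h * x))
  map_add' x y := by
    ext n <;> simp [mul_add]; abel
  map_smul' c x := by
    ext n <;> simp

/-- projection -/
def f : P A →ₗ[k] A where
  toFun y := y.1 0
  map_add' x y := rfl
  map_smul' c x := rfl

/-- homotopy -/
def H (I : HIdem (k := k) d) : P A →ₗ[k] P A where
  toFun y := (fun n => -(I.h * ∑ j ∈ range (n + 1), y.1 (j + 1)) + y.2 n
      - I.e * ∑ j ∈ range (n + 1), y.2 j,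
    fun n => I.r * (∑ j ∈ range (n + 2), y.1 (j + 1)) + I.h * ∑ j ∈ range (n + 2), y.2 j)
  map_add' x y := by
    ext n <;> simp [mul_add, sum_add_distrib] <;> abel
  map_smul' c x := by
    ext n <;> simp [smul_sub, smul_add, ← smul_sum]

theorem D_D (hd : ∀ x, d (d x) = 0) (y : P A) : I.D (I.D y) = 0 := by
  ext n
  · simp [D, hd]
  · simp [D, hd, I.de]

theorem f_D (y : P A) : f (k := k) (I.D y) = d (f (k := k) y) := rfl

theorem D_g (x : A) : I.D (I.g x) = I.g (d x) := by
  ext n
  · simp [D, g, I.de]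
  · simp only [D, g, LinearMap.coe_mk, AddHom.coe_mk, map_neg, I.dh]
    noncomm_ring

theorem f_g (x : A) : f (k := k) (I.g x) = I.e * x := rfl

theorem D_H (y : P A) : I.D (I.H y) + I.H (I.D y) = y - I.g (f (k := k) y) := by
  obtain ⟨a, b⟩ := y
  ext n
  · simp only [D, H, g, f, LinearMap.coe_mk, AddHom.coe_mk, Prod.fst_add, Pi.add_apply, map_add,
      map_sub, map_neg, I.dh, I.de, map_sum, Prod.fst_sub, Pi.sub_apply]
    have h1 : ∑ j ∈ range (n + 1), (a j - I.e * a (j + 1) - d (b j))
        = ∑ j ∈ range (n + 1), a j - I.e * ∑ j ∈ range (n + 1), a (j + 1)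
          - ∑ j ∈ range (n + 1), d (b j) := by
      rw [sum_sub_distrib, sum_sub_distrib, mul_sum]
    have h2 : ∑ j ∈ range (n + 1), a j = a 0 + ∑ j ∈ range (n + 1), a (j + 1) - a (n + 1) := by
      have := sum_range_succ' a (n + 1)
      rw [sum_range_succ] at this
      have h3 : ∑ j ∈ range (n + 1), a j = ∑ j ∈ range (n + 1), a (j + 1) + a 0 - a (n + 1) := by
        rw [← this]; abel
      rw [h3]; abel
    rw [h1, h2]
    noncomm_ring
  · simp only [D, H, g, f, LinearMap.coe_mk, AddHom.coe_mk, Prod.snd_add, Pi.add_apply, map_add,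
      map_sub, map_neg, I.dh, I.de, I.dr, map_sum, Prod.snd_sub, Pi.sub_apply]
    have h1 : ∑ j ∈ range (n + 2), (a j - I.e * a (j + 1) - d (b j))
        = ∑ j ∈ range (n + 2), a j - I.e * ∑ j ∈ range (n + 2), a (j + 1)
          - ∑ j ∈ range (n + 2), d (b j) := by
      rw [sum_sub_distrib, sum_sub_distrib, mul_sum]
    have h2 : ∑ j ∈ range (n + 2), a j = a 0 + ∑ j ∈ range (n + 1), a (j + 1) := by
      rw [sum_range_succ' a (n + 1)]; abel
    have h3 : ∑ j ∈ range (n + 1 + 1), b j = ∑ j ∈ range (n + 1), b j + b (n + 1) :=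
      sum_range_succ _ _
    rw [h1, h2, show n + 2 = n + 1 + 1 from rfl, h3]
    simp only [sum_range_succ (fun j => a (j + 1)) (n + 1)]
    noncomm_ring

end HIdem

end Pool.Agent.Helper35.Sch
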