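import Mathlib

/-!
Ring theoretic consequences of the eight defining relations.
-/

namespace Pool.Agent.Helper35.Sch

/-- The eight relations of the finitely presented algebra, in an arbitrary ring. -/
structure Rel {B : Type*} [Ring B] (e t t' s s' : B) : Prop where
  ee : e * e = e
  tt' : t * t' = 1
  t't : t' * t = 1
  ss' : s * s' = 1
  s's : s' * s = 1
  st : s * t = t * s
  comm : e * (t * e * t') = (t * e * t') * e
  conj : s * e * s' = e + t * e * t' - 2 * (e * (t * e * t'))

/-- the shifted idempotents -/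
def lamp {B : Type*} [Ring B] (e t t' : B) (n : ℕ) : B := t ^ n * e * t' ^ n

/-- the symmetric difference idempotent -/
def qq {B : Type*} [Ring B] (e t t' : B) (n : ℕ) : B :=
  e + lamp e t t' n - 2 * (e * lamp e t t' n)

namespace Rel

variable {B : Type*} [Ring B] {e t t' s s' : B} (R : Rel e t t' s s')

include R

theorem lamp_zero : lamp e t t' 0 = e := by simp [lamp]

theorem lamp_succ (n : ℕ) : lamp e t t' (n + 1) = t * lamp e t t' n * t' := by
  simp [lamp, pow_succ' t, pow_succ t', mul_assoc]

theorem t'_pow_mul (n : ℕ) : t' ^ n * t ^ n = 1 := by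
  induction n with
  | zero => simp
  | succ n ih =>
    rw [pow_succ t', pow_succ' t, show t' ^ n * t' * (t * t ^ n) = t' ^ n * (t' * t) * t ^ n by
      noncomm_ring, R.t't, mul_one, ih]

theorem lamp_idem (n : ℕ) : lamp e t t' n * lamp e t t' n = lamp e t t' n := by
  unfold lamp
  rw [show t ^ n * e * t' ^ n * (t ^ n * e * t' ^ n) = t ^ n * e * (t' ^ n * t ^ n) * e * t' ^ n by
    noncomm_ring, R.t'_pow_mul, mul_one, mul_assoc (t ^ n) e e, R.ee]

theorem comm_shift {x y : B} (h : x * y = y * x) :
    (t * x * t') * (t * y * t') = (t * y * t') * (t * x * t') := by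
  rw [show (t * x * t') * (t * y * t') = t * x * (t' * t) * y * t' by noncomm_ring,
    show (t * y * t') * (t * x * t') = t * y * (t' * t) * x * t' by noncomm_ring, R.t't,
    mul_one, mul_one, mul_assoc t x y, h, ← mul_assoc]

theorem comm_lamp_add {j : ℕ} (h : e * lamp e t t' j = lamp e t t' j * e) (i : ℕ) :
    lamp e t t' i * lamp e t t' (i + j) = lamp e t t' (i + j) * lamp e t t' i := by
  induction i with
  | zero => simpa [R.lamp_zero] using h
  | succ i ih =>
    rw [show i + 1 + j = (i + j) + 1 by ring, R.lamp_succ, R.lamp_succ]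
    exact R.comm_shift ih

theorem s_pow (n : ℕ) : s * t ^ n = t ^ n * s := by
  exact (Commute.pow_right (show Commute s t from R.st) n).eq

theorem t's' : t' * s' = s' * t' := by
  have h1 : (t' * s') * (s * t) = 1 := by
    rw [show (t' * s') * (s * t) = t' * (s' * s) * t by noncomm_ring, R.s's, mul_one, R.t't]
  have h2 : (s * t) * (s' * t') = 1 := by
    rw [R.st, show (t * s) * (s' * t') = t * (s * s') * t' by noncomm_ring, R.ss', mul_one, R.tt']
  calc t' * s' = (t' * s') * ((s * t) * (s' * t')) := by rw [h2, mul_one]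
    _ = s' * t' := by rw [← mul_assoc, h1, one_mul]

theorem s'_pow (n : ℕ) : t' ^ n * s' = s' * t' ^ n :=
  ((Commute.pow_left (show Commute t' s' from R.t's') n).eq)

theorem phi_lamp (n : ℕ) : s * lamp e t t' n * s'
    = lamp e t t' n + lamp e t t' (n + 1) - 2 * (lamp e t t' n * lamp e t t' (n + 1)) := by
  unfold lamp
  rw [show s * (t ^ n * e * t' ^ n) * s' = (s * t ^ n) * e * (t' ^ n * s') by noncomm_ring,
    R.s_pow, R.s'_pow, show t ^ n * s * e * (s' * t' ^ n) = t ^ n * (s * e * s') * t' ^ n by
    noncomm_ring, R.conj]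
  have h1 : t ^ n * e * t' ^ n * (t ^ (n + 1) * e * t' ^ (n + 1))
      = t ^ n * (e * (t * e * t')) * t' ^ n := by
    rw [pow_succ t, pow_succ' t', show t ^ n * e * t' ^ n * (t ^ n * t * e * (t' * t' ^ n))
      = t ^ n * e * (t' ^ n * t ^ n) * t * e * (t' * t' ^ n) by noncomm_ring, R.t'_pow_mul]
    noncomm_ring
  rw [h1, pow_succ t, pow_succ' t']
  noncomm_ring

theorem phi_mul (x y : B) : (s * x * s') * (s * y * s') = s * (x * y) * s' := by
  rw [show (s * x * s') * (s * y * s') = s * x * (s' * s) * y * s' by noncomm_ring, R.s's]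
  noncomm_ring

theorem step {x y z w : B} (hy : y * y = y) (hz : z * z = z)
    (hxy : x * y = y * x) (hxz : x * z = z * x) (hyz : y * z = z * y) (hyw : y * w = w * y)
    (hzw : z * w = w * z)
    (h : (x + y - 2 * (x * y)) * (z + w - 2 * (z * w))
      = (z + w - 2 * (z * w)) * (x + y - 2 * (x * y))) : x * w = w * x := by
  -- `(1-2z) [x,w] (1-2y) = 0`
  have key : (1 - 2 * z) * (x * w - w * x) * (1 - 2 * y) = 0 := by
    have e1 : (1 - 2 * z) * (x * w - w * x) * (1 - 2 * y)
        = (x + y - 2 * (x * y)) * (z + w - 2 * (z * w))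
          - (z + w - 2 * (z * w)) * (x + y - 2 * (x * y)) := by
      have a1 : z * x = x * z := hxz.symm
      have a2 : z * y = y * z := hyz.symm
      have a3 : w * y = y * w := hyw.symm
      have a4 : w * z = z * w := hzw.symm
      have a5 : y * x = x * y := hxy.symm
      have b1 : z * (x * w) = x * z * w := by rw [← mul_assoc, a1]
      have b2 : (x * w) * y = x * y * w := by rw [mul_assoc, a3, ← mul_assoc]
      have b3 : (w * x) * y = w * (x * y) := mul_assoc _ _ _
      have b4 : y * (z * w) = z * w * y := by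
        rw [← mul_assoc, hyz, mul_assoc, hyw, ← mul_assoc]
      have b5 : z * (x * y) = x * y * z := by
        rw [← mul_assoc, a1, mul_assoc, a2, ← mul_assoc]
      have b6 : y * z = z * y := hyz
      have L : (1 - 2 * z) * (x * w - w * x) * (1 - 2 * y)
          = x * w - w * x - 2 * (z * (x * w)) + 2 * (z * (w * x)) - 2 * (x * w * y)
            + 2 * (w * x * y) + 4 * (z * (x * w) * y) - 4 * (z * (w * x) * y) := by
        noncomm_ring
      have Rr : (x + y - 2 * (x * y)) * (z + w - 2 * (z * w))
          - (z + w - 2 * (z * w)) * (x + y - 2 * (x * y))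
          = (x * z - z * x) + (x * w - w * x) + (y * z - z * y) + (y * w - w * y)
            - 2 * (x * (z * w)) + 2 * (z * w * x) - 2 * (y * (z * w)) + 2 * (z * w * y)
            - 2 * (x * y * z) + 2 * (z * (x * y)) - 2 * (x * y * w) + 2 * (w * (x * y))
            + 4 * (x * y * (z * w)) - 4 * (z * w * (x * y)) := by
        noncomm_ring
      rw [L, Rr, b1, b2, b3, b4, b5, hxz, hyz, hyw]
      have c1 : x * z * w = x * (z * w) := mul_assoc _ _ _
      have c2 : z * (w * x) = z * w * x := (mul_assoc _ _ _).symm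
      have c3 : z * w * x * y = z * w * (x * y) := mul_assoc _ _ _
      have c4 : x * z * w * y = x * y * (z * w) := by
        rw [mul_assoc (x * z) w y, a3, ← mul_assoc, mul_assoc x z y, a2, ← mul_assoc,
          mul_assoc (x * y) z w]
      rw [← hxz, c4, c1, c2, c3]
      abel
    rw [e1, h, sub_self]
  have hz2 : (1 - 2 * z) * (1 - 2 * z) = 1 := by
    have : (1 - 2 * z) * (1 - 2 * z) = 1 - 4 * z + 4 * (z * z) := by noncomm_ring
    rw [this, hz]; abel
  have hy2 : (1 - 2 * y) * (1 - 2 * y) = 1 := by
    have : (1 - 2 * y) * (1 - 2 * y) = 1 - 4 * y + 4 * (y * y) := by noncomm_ring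
    rw [this, hy]; abel
  have : x * w - w * x = 0 := by
    calc x * w - w * x = ((1 - 2 * z) * (1 - 2 * z)) * (x * w - w * x)
          * ((1 - 2 * y) * (1 - 2 * y)) := by rw [hz2, hy2]; noncomm_ring
      _ = (1 - 2 * z) * ((1 - 2 * z) * (x * w - w * x) * (1 - 2 * y)) * (1 - 2 * y) := by
          noncomm_ring
      _ = 0 := by rw [key]; noncomm_ring
  exact sub_eq_zero.mp this

theorem comm_lamp (n : ℕ) : ∀ j ≤ n, e * lamp e t t' j = lamp e t t' j * e := by
  induction n with
  | zero =>
    intro j hj
    obtain rfl : j = 0 := by omega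
    rw [R.lamp_zero]
  | succ n ih =>
    intro j hj
    rcases Nat.lt_or_ge j (n + 1) with h | h
    · exact ih j (by omega)
    obtain rfl : j = n + 1 := by omega
    rcases Nat.eq_zero_or_pos n with rfl | hn
    · have := R.comm
      simpa [lamp] using this
    have h1 := ih n le_rfl
    have hphi : s * (e * lamp e t t' n) * s' = s * (lamp e t t' n * e) * s' := by rw [h1]
    rw [← R.phi_mul, ← R.phi_mul, R.phi_lamp n] at hphi
    have h0 : s * e * s' = e + lamp e t t' 1 - 2 * (e * lamp e t t' 1) := by
      rw [R.conj]; simp [lamp]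
    rw [h0] at hphi
    refine R.step (R.lamp_idem 1) (R.lamp_idem n) (ih 1 hn) h1 ?_ ?_ ?_ hphi
    · have := R.comm_lamp_add (ih (n - 1) (by omega)) 1
      rwa [show 1 + (n - 1) = n by omega] at this
    · have := R.comm_lamp_add (ih n le_rfl) 1
      rwa [show 1 + n = n + 1 by omega] at this
    · exact R.comm_lamp_add (ih 1 hn) n

theorem qq_idem (n : ℕ) : qq e t t' n * qq e t t' n = qq e t t' n := by
  have hc := R.comm_lamp n n le_rfl
  have he := R.ee
  have hl := R.lamp_idem n
  unfold qq
  generalize lamp e t t' n = f at *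
  have a1 : f * e = e * f := hc.symm
  have a2 : e * (e * f) = e * f := by rw [← mul_assoc, he]
  have a3 : f * (e * f) = e * f := by rw [← mul_assoc, a1, mul_assoc, hl]
  have a4 : e * f * e = e * f := by rw [mul_assoc, a1, a2]
  have a5 : e * f * f = e * f := by rw [mul_assoc, hl]
  have a6 : e * f * (e * f) = e * f := by rw [← mul_assoc, a4, a5]
  have : (e + f - 2 * (e * f)) * (e + f - 2 * (e * f))
      = e * e + e * f + f * e + f * f - 2 * (e * (e * f)) - 2 * (f * (e * f))
        - 2 * (e * f * e) - 2 * (e * f * f) + 4 * (e * f * (e * f)) := by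
    noncomm_ring
  rw [this, a1, a2, a3, a4, a5, a6, he, hl]
  noncomm_ring

end Rel

end Pool.Agent.Helper35.Sch
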